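import Mathlib

/-!
# Linear dynamics along a word over a finite alphabet: a return that can be pumped

`x (j+1) = T (ξ j) (x j)` with `ξ` over a finite alphabet and `x j ∈ K (ξ j)` (subspaces). Then there are
`i ≥ M` and a period `p > 0` with `ξ (i+p) = ξ i` such that the trajectory that starts in `x i` and
follows the letters `ξ i, ..., ξ (i+p-1)` periodically satisfies the same conditions for ever.
Proof: Zimin words and a dimension count.
-/

set_option autoImplicit false

open Module

namespace PoolHD0L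

/-- the words of length `L` at `i` and at `j` are equal -/
def EqW {Ξ : Type*} (ξ : ℕ → Ξ) (L i j : ℕ) : Prop := ∀ r < L, ξ (i + r) = ξ (j + r)

theorem EqW.refl {Ξ : Type*} (ξ : ℕ → Ξ) (L i : ℕ) : EqW ξ L i i := fun _ _ => rfl

theorem EqW.mono {Ξ : Type*} {ξ : ℕ → Ξ} {L L' i j : ℕ} (h : EqW ξ L i j) (hL : L' ≤ L) :
    EqW ξ L' i j := fun r hr => h r (lt_of_lt_of_le hr hL)

/-- the word of length `L` at `i` is a Zimin word of order `k` (image of `Z_(k+1)`): the lengths are
`L 0 < L 1 < ...`, the distances `D j` -/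
structure Zim {Ξ : Type*} (ξ : ℕ → Ξ) (k i : ℕ) (L D : ℕ → ℕ) : Prop where
  one : 1 ≤ L 0
  pos : ∀ j < k, 1 ≤ D j
  len : ∀ j < k, L (j + 1) = D j + L j
  eqw : ∀ j < k, EqW ξ (L j) i (i + D j)

theorem exists_zim {Ξ : Type*} [Finite Ξ] (ξ : ℕ → Ξ) (k : ℕ) :
    ∃ N : ℕ, 1 ≤ N ∧ ∀ M : ℕ, ∃ i, M ≤ i ∧ ∃ L D : ℕ → ℕ, Zim ξ k i L D ∧ i + L k ≤ M + N := by
  classical
  have := Fintype.ofFinite Ξ
  induction k with
  | zero =>
    refine ⟨1, le_rfl, fun M => ⟨M, le_rfl, fun _ => 1, fun _ => 1, ⟨le_rfl, ?_, ?_, ?_⟩, le_rfl⟩⟩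
    · intro j hj; omega
    · intro j hj; omega
    · intro j hj; omega
  | succ k ih =>
    obtain ⟨N, hN, h⟩ := ih
    set Q := Fintype.card (Fin N → Ξ) with hQ
    refine ⟨(Q + 1) * N, Nat.mul_pos (Nat.succ_pos _) hN, fun M => ?_⟩
    -- two equal blocks
    obtain ⟨c, c', hne, heq⟩ := Fintype.exists_ne_map_eq_of_card_lt
      (fun c : Fin (Q + 1) => (fun r : Fin N => ξ (M + c * N + r))) (by
        rw [Fintype.card_fin]; omega)
    wlog hlt : c < c' generalizing c c'
    · exact this c' c hne.symm heq.symm (lt_of_le_of_ne (not_lt.mp hlt) hne.symm)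
    have heq' : ∀ r < N, ξ (M + c * N + r) = ξ (M + c' * N + r) := fun r hr =>
      congrFun heq ⟨r, hr⟩
    obtain ⟨i, hi, L, D, hZ, hiL⟩ := h (M + c * N)
    have hcc : (c : ℕ) < c' := hlt
    have hc' : (c' : ℕ) ≤ Q := Nat.lt_succ_iff.mp c'.2
    set E := (c' - c : ℕ) * N with hE
    have hcE : (c : ℕ) * N + E = c' * N := by
      rw [hE, ← Nat.add_mul]
      congr 1
      omega
    have hEN : N ≤ E := Nat.le_mul_of_pos_left N (by omega)
    refine ⟨i, by omega, fun j => if j ≤ k then L j else E + L k, fun j => if j < k then D j else E,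
      ⟨?_, ?_, ?_, ?_⟩, ?_⟩
    · rw [if_pos (Nat.zero_le k)]; exact hZ.one
    · intro j hj
      by_cases h1 : j < k
      · simp only [if_pos h1]; exact hZ.pos j h1
      · simp only [if_neg h1]; omega
    · intro j hj
      by_cases h1 : j < k
      · simp only [if_pos h1, if_pos (by omega : j ≤ k), if_pos (by omega : j + 1 ≤ k)]
        exact hZ.len j h1
      · have h2 : j = k := by omega
        subst h2
        simp only [if_neg h1, if_pos (le_refl j), if_neg (by omega : ¬ j + 1 ≤ j)]
    · intro j hj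
      by_cases h1 : j < k
      · simp only [if_pos h1, if_pos (by omega : j ≤ k)]
        exact hZ.eqw j h1
      · have h2 : j = k := by omega
        subst h2
        simp only [if_neg h1, if_pos (le_refl j)]
        intro r hr
        obtain ⟨s, hs⟩ := Nat.exists_eq_add_of_le hi
        have h3 := heq' (s + r) (by omega)
        have e1 : i + r = M + c * N + (s + r) := by omega
        have e2 : i + E + r = M + c' * N + (s + r) := by omega
        rw [e1, e2]
        exact h3
    · simp only [if_neg (by omega : ¬ k + 1 ≤ k)]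
      have h4 : (c' : ℕ) * N ≤ Q * N := Nat.mul_le_mul_right N hc'
      have h5 : (Q + 1) * N = Q * N + N := by ring
      omega

/-- the pumping lemma for linear dynamics along a word -/
theorem la_lemma {F V Ξ : Type*} [Field F] [AddCommGroup V] [Module F V] [FiniteDimensional F V]
    [Finite Ξ] (T : Ξ → V →ₗ[F] V) (K : Ξ → Submodule F V) (ξ : ℕ → Ξ) (x : ℕ → V)
    (hx : ∀ j, x (j + 1) = T (ξ j) (x j)) (hK : ∀ j, x j ∈ K (ξ j)) (M : ℕ) :
    ∃ i, M ≤ i ∧ ∃ p, 0 < p ∧ ξ (i + p) = ξ i ∧ ∃ y : ℕ → V, y 0 = x i ∧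
      (∀ n, y (n + 1) = T (ξ (i + n % p)) (y n)) ∧ ∀ n, y n ∈ K (ξ (i + n % p)) := by
  classical
  obtain ⟨N, _, h⟩ := exists_zim ξ (finrank F V + 1)
  obtain ⟨i, hi, L, D, hZ, _⟩ := h M
  -- the spans
  let S : ℕ → Submodule F V := fun j => Submodule.span F (x '' {m | EqW ξ (L j) i m})
  have hmono : ∀ j < finrank F V + 1, S (j + 1) ≤ S j := by
    intro j hj
    refine Submodule.span_mono (Set.image_mono fun m hm => ?_)
    exact hm.mono (by rw [hZ.len j hj]; omega)
  have hL1 : ∀ j ≤ finrank F V + 1, 1 ≤ L j := by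
    intro j
    induction j with
    | zero => intro _; exact hZ.one
    | succ j ih =>
      intro hj
      rw [hZ.len j (by omega)]
      have := ih (by omega)
      omega
  -- two consecutive spans are equal
  obtain ⟨j, hj, hS⟩ : ∃ j < finrank F V + 1, S (j + 1) = S j := by
    by_contra hcon
    push Not at hcon
    have hdec : ∀ j ≤ finrank F V + 1, finrank F (S j) + j ≤ finrank F V := by
      intro j
      induction j with
      | zero => intro _; simpa using Submodule.finrank_le (S 0)
      | succ j ih =>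
        intro hj
        have h1 := ih (by omega)
        have h2 : S (j + 1) < S j := lt_of_le_of_ne (hmono j (by omega)) (hcon j (by omega))
        have h3 := Submodule.finrank_lt_finrank_of_lt h2
        omega
    have := hdec (finrank F V + 1) le_rfl
    omega
  have hLen := hZ.len j hj
  have hLj := hL1 j hj.le
  have hD := hZ.pos j hj
  -- the subspaces along the period
  let R : ℕ → Submodule F V := fun r =>
    Submodule.span F ((fun m => x (m + r)) '' {m | EqW ξ (L (j + 1)) i m})
  have hR0 : R 0 = S (j + 1) := rfl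
  have hRK : ∀ r < L (j + 1), R r ≤ K (ξ (i + r)) := by
    intro r hr
    rw [Submodule.span_le]
    rintro _ ⟨m, hm, rfl⟩
    have h1 : ξ (i + r) = ξ (m + r) := hm r hr
    rw [h1]
    exact hK (m + r)
  have hRT : ∀ r < L (j + 1), ∀ z ∈ R r, T (ξ (i + r)) z ∈ R (r + 1) := by
    intro r hr z hz
    have h1 : R r ≤ (R (r + 1)).comap (T (ξ (i + r))) := by
      rw [Submodule.span_le]
      rintro _ ⟨m, hm, rfl⟩
      have h1 : ξ (i + r) = ξ (m + r) := hm r hr
      change T (ξ (i + r)) (x (m + r)) ∈ R (r + 1)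
      rw [h1, ← hx]
      exact Submodule.subset_span ⟨m, hm, rfl⟩
    exact h1 hz
  have hRD : R (D j) ≤ R 0 := by
    rw [hR0, hS, Submodule.span_le]
    rintro _ ⟨m, hm, rfl⟩
    refine Submodule.subset_span ⟨m + D j, ?_, rfl⟩
    intro r hr
    have h1 : ξ (i + (D j + r)) = ξ (m + (D j + r)) := hm (D j + r) (by omega)
    have h2 : ξ (i + r) = ξ (i + D j + r) := hZ.eqw j hj r hr
    rw [h2, Nat.add_assoc i, h1, Nat.add_assoc m]
  refine ⟨i, hi, D j, hD, ?_, ?_⟩
  · have h1 := hZ.eqw j hj 0 hLj
    simpa using h1.symm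
  · let y : ℕ → V := fun n => Nat.rec (x i) (fun n z => T (ξ (i + n % D j)) z) n
    have hy : ∀ n, y (n + 1) = T (ξ (i + n % D j)) (y n) := fun n => rfl
    have hinv : ∀ n, y n ∈ R (n % D j) := by
      intro n
      induction n with
      | zero =>
        rw [Nat.zero_mod]
        exact Submodule.subset_span ⟨i, EqW.refl ξ _ i, rfl⟩
      | succ n ih =>
        have hlt : n % D j < D j := Nat.mod_lt _ hD
        have h1 := hRT (n % D j) (by omega) (y n) ih
        rw [← hy] at h1
        by_cases h2 : n % D j + 1 = D j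
        · rw [h2] at h1
          have h3 : (n + 1) % D j = 0 := by
            rw [← Nat.mod_add_mod, h2, Nat.mod_self]
          rw [h3]
          exact hRD h1
        · have h3 : (n + 1) % D j = n % D j + 1 := by
            have h4 : n % D j + 1 < D j := by omega
            rw [← Nat.mod_add_mod, Nat.mod_eq_of_lt h4]
          rw [h3]
          exact h1
    refine ⟨y, rfl, hy, fun n => ?_⟩
    exact hRK _ (by have := Nat.mod_lt n hD; omega) (hinv n)

end PoolHD0L
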